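import Pool.Agent.H629.TA.Stm

/-!
# TA-MB: the process on a probability space
-/

set_option autoImplicit false

open Finset MeasureTheory ProbabilityTheory

namespace Pool.Agent.H102.TA.MB

open Pool.Agent.H629.TA

universe u

/-- The sum over the valid histories (zero outside of the steps `3, …, i + 2`). -/
noncomputable def Sm (m : ℕ) : ℕ → (Hist m → ℝ) → ℝ
  | 0, F => F (fun _ _ => 0)
  | i + 1, F => Sm m i (fun h => ∑ j ∈ Fintype.piFinset (fun _ : Fin m => Icc 1 (i + 2)),
      F (Function.update h (i + 3) j))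

/-- The atom of a history. -/
def At {m : ℕ} {Ω : Type u} (J : ℕ → Fin m → Ω → ℕ) (k : ℕ) (h : Hist m) : Set Ω :=
  {ω | ∀ i ∈ Icc 3 k, ∀ l, J i l ω = h i l}

theorem At_succ {m : ℕ} {Ω : Type u} (J : ℕ → Fin m → Ω → ℕ) (i : ℕ) (h : Hist m)
    (j : Fin m → ℕ) (ω : Ω) : ω ∈ At J (i + 3) (Function.update h (i + 3) j) ↔
      ω ∈ At J (i + 2) h ∧ ∀ l, J (i + 3) l ω = j l := by
  constructor
  · intro hω
    constructor
    · intro k hk l
      rw [Finset.mem_Icc] at hk
      have h1 := hω k (Finset.mem_Icc.mpr ⟨hk.1, by omega⟩) l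
      rwa [Function.update_of_ne (by omega)] at h1
    · intro l
      have h1 := hω (i + 3) (Finset.mem_Icc.mpr ⟨by omega, le_refl _⟩) l
      rwa [Function.update_self] at h1
  · rintro ⟨h1, h2⟩ k hk l
    rw [Finset.mem_Icc] at hk
    by_cases hki : k = i + 3
    · rw [hki, Function.update_self]
      exact h2 l
    · rw [Function.update_of_ne hki]
      exact h1 k (Finset.mem_Icc.mpr ⟨hk.1, by omega⟩) l

theorem At_update {m : ℕ} {Ω : Type u} (J : ℕ → Fin m → Ω → ℕ) (i : ℕ) (h : Hist m)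
    (j : Fin m → ℕ) : At J (i + 2) (Function.update h (i + 3) j) = At J (i + 2) h := by
  ext ω
  constructor
  · intro hω k hk l
    have hk' := Finset.mem_Icc.mp hk
    have h1 := hω k hk l
    rwa [Function.update_of_ne (by omega)] at h1
  · intro hω k hk l
    have hk' := Finset.mem_Icc.mp hk
    rw [Function.update_of_ne (by omega)]
    exact hω k hk l

theorem law_step (hUP : S_UP) {m : ℕ} {δ : ℝ} {Ω : Type u} [MeasurableSpace Ω] {P : Measure Ω}
    {J : ℕ → Fin m → Ω → ℕ} (hJ : IsPA m δ P J) (i : ℕ) (h : Hist m) (j : Fin m → ℕ)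
    (hj : ∀ l, j l ∈ Icc 1 (i + 2)) :
    P.real (At J (i + 3) (Function.update h (i + 3) j)) =
      (∏ l, wt m δ h (i + 2) (j l) / tot m δ (i + 2)) * P.real (At J (i + 2) h) := by
  have h1 := hJ.law (i + 3) (by omega) (Function.update h (i + 3) j)
  have h2 : P.real (At J (i + 3) (Function.update h (i + 3) j)) =
      P.real (At J (i + 2) (Function.update h (i + 3) j)) *
        ∏ l, (if (Function.update h (i + 3) j) (i + 3) l ∈ Icc 1 (i + 2) then
          ((deg m (Function.update h (i + 3) j) (i + 2)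
            ((Function.update h (i + 3) j) (i + 3) l) : ℝ) + δ) /
            (2 * m * (((i + 3 : ℕ) : ℝ) - 2) + (((i + 3 : ℕ) : ℝ) - 1) * δ) else 0) := h1
  rw [h2, At_update, mul_comm]
  congr 1
  refine Finset.prod_congr rfl (fun l _ => ?_)
  rw [Function.update_self, if_pos (hj l)]
  have h3 : deg m (Function.update h (i + 3) j) (i + 2) (j l) = deg m h (i + 2) (j l) := by
    unfold deg
    refine Finset.sum_congr rfl (fun b hb => ?_)
    exact (hUP m (i + 2) h j (by omega) hj).2.2.1 (j l) (hj l) b hb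
  rw [h3]
  unfold wt tot
  have h4 : 2 * (m : ℝ) * (((i + 3 : ℕ) : ℝ) - 2) + (((i + 3 : ℕ) : ℝ) - 1) * δ =
      2 * (m : ℝ) * (((i + 2 : ℕ) : ℝ) - 1) + ((i + 2 : ℕ) : ℝ) * δ := by
    push_cast
    ring
  rw [h4]

theorem Sm_congr (m : ℕ) (i : ℕ) (F G : Hist m → ℝ) (h : ∀ w, F w = G w) : Sm m i F = Sm m i G := by
  have : F = G := funext h
  rw [this]

theorem Ex_eq (hUP : S_UP) {m : ℕ} {δ : ℝ} {Ω : Type u} [MeasurableSpace Ω] {P : Measure Ω}
    {J : ℕ → Fin m → Ω → ℕ} (hJ : IsPA m δ P J) (i : ℕ) : ∀ f : Hist m → ℝ,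
    Ex m δ i f = Sm m i (fun h => f h * P.real (At J (i + 2) h)) := by
  induction i with
  | zero =>
    intro f
    haveI := hJ.prob
    change f (fun _ _ => 0) = f (fun _ _ => 0) * P.real (At J 2 (fun _ _ => 0))
    have h1 : At J 2 (fun _ _ => 0) = Set.univ := by
      ext ω
      refine ⟨fun _ => trivial, fun _ k hk l => ?_⟩
      rw [Finset.mem_Icc] at hk
      omega
    rw [h1, probReal_univ, mul_one]
  | succ i ih =>
    intro f
    change Ex m δ i (step m δ (i + 2) f) = Sm m i (fun h =>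
      ∑ j ∈ Fintype.piFinset (fun _ : Fin m => Icc 1 (i + 2)),
        f (Function.update h (i + 3) j) * P.real (At J (i + 3) (Function.update h (i + 3) j)))
    rw [ih]
    refine Sm_congr m i _ _ (fun h => ?_)
    unfold step draw
    rw [Finset.sum_mul]
    refine Finset.sum_congr rfl (fun j hj => ?_)
    rw [Fintype.mem_piFinset] at hj
    rw [law_step hUP hJ i h j hj]
    ring

theorem Sm_pt {m : ℕ} {Ω : Type u} (J : ℕ → Fin m → Ω → ℕ) (ω : Ω) (i : ℕ) :
    (∀ k ∈ Icc 3 (i + 2), ∀ l, J k l ω ∈ Icc 1 (k - 1)) → ∀ f : Hist m → ℝ,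
    (∀ h h' : Hist m, (∀ k ∈ Icc 3 (i + 2), ∀ l, h k l = h' k l) → f h = f h') →
    Sm m i (fun h => (At J (i + 2) h).indicator (fun _ => f h) ω) = f (fun k l => J k l ω) := by
  classical
  induction i with
  | zero =>
    intro _ f hf
    change (At J 2 (fun _ _ => 0)).indicator (fun _ => f (fun _ _ => 0)) ω = _
    rw [Set.indicator_of_mem]
    · apply hf
      intro k hk l
      rw [Finset.mem_Icc] at hk
      omega
    · intro k hk l
      rw [Finset.mem_Icc] at hk
      omega
  | succ i ih =>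
    intro hv f hf
    have hv' : ∀ k ∈ Icc 3 (i + 2), ∀ l, J k l ω ∈ Icc 1 (k - 1) := by
      intro k hk l
      rw [Finset.mem_Icc] at hk
      exact hv k (Finset.mem_Icc.mpr ⟨hk.1, by omega⟩) l
    have hlast : ∀ l, J (i + 3) l ω ∈ Icc 1 (i + 2) := fun l =>
      hv (i + 3) (Finset.mem_Icc.mpr ⟨by omega, le_refl _⟩) l
    change Sm m i (fun h => ∑ j ∈ Fintype.piFinset (fun _ : Fin m => Icc 1 (i + 2)),
      (At J (i + 3) (Function.update h (i + 3) j)).indicator
        (fun _ => f (Function.update h (i + 3) j)) ω) = _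
    have h1 : ∀ h : Hist m, ∑ j ∈ Fintype.piFinset (fun _ : Fin m => Icc 1 (i + 2)),
        (At J (i + 3) (Function.update h (i + 3) j)).indicator
          (fun _ => f (Function.update h (i + 3) j)) ω =
        (At J (i + 2) h).indicator
          (fun _ => f (Function.update h (i + 3) (fun l => J (i + 3) l ω))) ω := by
      intro h
      rw [Finset.sum_eq_single (fun l => J (i + 3) l ω)]
      · by_cases hω : ω ∈ At J (i + 2) h
        · rw [Set.indicator_of_mem hω, Set.indicator_of_mem]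
          rw [At_succ]
          exact ⟨hω, fun l => rfl⟩
        · rw [Set.indicator_of_notMem hω, Set.indicator_of_notMem]
          rw [At_succ]
          exact fun h2 => hω h2.1
      · intro j _ hj
        rw [Set.indicator_of_notMem]
        rw [At_succ]
        rintro ⟨_, h2⟩
        exact hj (funext (fun l => (h2 l).symm))
      · intro hn
        exact absurd (Fintype.mem_piFinset.mpr hlast) hn
    rw [Sm_congr m i _ _ h1]
    rw [ih hv' (fun h => f (Function.update h (i + 3) (fun l => J (i + 3) l ω)))]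
    · apply hf
      intro k hk l
      by_cases hki : k = i + 3
      · rw [hki, Function.update_self]
      · rw [Function.update_of_ne hki]
    · intro h h' hh
      apply hf
      intro k hk l
      rw [Finset.mem_Icc] at hk
      by_cases hki : k = i + 3
      · rw [hki, Function.update_self, Function.update_self]
      · rw [Function.update_of_ne hki, Function.update_of_ne hki]
        exact hh k (Finset.mem_Icc.mpr ⟨hk.1, by omega⟩) l

theorem Sm_int {m : ℕ} {Ω : Type u} [MeasurableSpace Ω] (P : Measure Ω) (i : ℕ) :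
    ∀ F : Hist m → Ω → ℝ, (∀ h, Integrable (F h) P) →
    Integrable (fun ω => Sm m i (fun h => F h ω)) P ∧
      ∫ ω, Sm m i (fun h => F h ω) ∂P = Sm m i (fun h => ∫ ω, F h ω ∂P) := by
  induction i with
  | zero =>
    intro F hF
    exact ⟨hF _, rfl⟩
  | succ i ih =>
    intro F hF
    have h1 := ih (fun h ω => ∑ j ∈ Fintype.piFinset (fun _ : Fin m => Icc 1 (i + 2)),
      F (Function.update h (i + 3) j) ω) (fun h => integrable_finset_sum _ (fun j _ => hF _))
    refine ⟨h1.1, ?_⟩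
    have h2 := h1.2
    change ∫ ω, Sm m i (fun h => ∑ j ∈ Fintype.piFinset (fun _ : Fin m => Icc 1 (i + 2)),
      F (Function.update h (i + 3) j) ω) ∂P = Sm m i (fun h =>
        ∑ j ∈ Fintype.piFinset (fun _ : Fin m => Icc 1 (i + 2)),
          ∫ ω, F (Function.update h (i + 3) j) ω ∂P)
    rw [h2]
    refine Sm_congr m i _ _ (fun h => ?_)
    exact integral_finset_sum _ (fun j _ => hF _)

theorem At_meas {m : ℕ} {δ : ℝ} {Ω : Type u} [MeasurableSpace Ω] {P : Measure Ω}
    {J : ℕ → Fin m → Ω → ℕ} (hJ : IsPA m δ P J) (k : ℕ) (h : Hist m) :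
    MeasurableSet (At J k h) := by
  have h1 : At J k h = ⋂ i ∈ Icc 3 k, ⋂ l : Fin m, (J i l) ⁻¹' {h i l} := by
    ext ω
    simp only [At, Set.mem_setOf_eq, Set.mem_iInter, Set.mem_preimage, Set.mem_singleton_iff]
  rw [h1]
  refine Finset.measurableSet_biInter _ (fun i _ => ?_)
  exact MeasurableSet.iInter (fun l => hJ.meas i l (measurableSet_singleton _))

theorem ae_valid {m : ℕ} {δ : ℝ} {Ω : Type u} [MeasurableSpace Ω] {P : Measure Ω}
    {J : ℕ → Fin m → Ω → ℕ} (hJ : IsPA m δ P J) (k : ℕ) (hk : 3 ≤ k) :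
    ∀ᵐ ω ∂P, ∀ l, J k l ω ∈ Icc 1 (k - 1) := by
  haveI := hJ.prob
  rw [ae_iff]
  let ext : (Fin (k + 1) → Fin m → ℕ) → Hist m := fun g n l =>
    if hn : n < k + 1 then g ⟨n, hn⟩ l else 0
  have hsub : {ω | ¬ ∀ l, J k l ω ∈ Icc 1 (k - 1)} ⊆
      ⋃ g : {g : Fin (k + 1) → Fin m → ℕ // ∃ l, ext g k l ∉ Icc 1 (k - 1)}, At J k (ext g.1) := by
    intro ω hω
    rw [Set.mem_setOf_eq] at hω
    push Not at hω
    obtain ⟨l, hl⟩ := hω
    rw [Set.mem_iUnion]
    refine ⟨⟨fun n l => J n l ω, l, ?_⟩, ?_⟩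
    · change (if hn : k < k + 1 then J k l ω else 0) ∉ Icc 1 (k - 1)
      rw [dif_pos (Nat.lt_succ_self k)]
      exact hl
    · intro n hn l'
      rw [Finset.mem_Icc] at hn
      change J n l' ω = (if hn : n < k + 1 then J n l' ω else 0)
      rw [dif_pos (by omega)]
  refine measure_mono_null hsub (measure_iUnion_null (fun g => ?_))
  obtain ⟨g, l, hl⟩ := g
  have h1 := hJ.law k hk (ext g)
  have h2 : ∏ l, (if (ext g) k l ∈ Icc 1 (k - 1) then
          ((deg m (ext g) (k - 1) ((ext g) k l) : ℝ) + δ) /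
            (2 * m * ((k : ℝ) - 2) + ((k : ℝ) - 1) * δ) else 0) = 0 := by
    apply Finset.prod_eq_zero (Finset.mem_univ l)
    rw [if_neg hl]
  rw [h2, mul_zero] at h1
  have h3 : P.real (At J k (ext g)) = 0 := h1
  rwa [measureReal_eq_zero_iff] at h3

theorem main (hUP : S_UP) {m : ℕ} {δ : ℝ} {Ω : Type u} [MeasurableSpace Ω] {P : Measure Ω}
    {J : ℕ → Fin m → Ω → ℕ} (hJ : IsPA m δ P J) (i : ℕ) (f : Hist m → ℝ)
    (hf : ∀ h h' : Hist m, (∀ k ∈ Icc 3 (i + 2), ∀ l, h k l = h' k l) → f h = f h') :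
    Integrable (fun ω => f (fun k l => J k l ω)) P ∧
      ∫ ω, f (fun k l => J k l ω) ∂P = Ex m δ i f := by
  haveI := hJ.prob
  have hae : ∀ᵐ ω ∂P, Sm m i (fun h => (At J (i + 2) h).indicator (fun _ => f h) ω) =
      f (fun k l => J k l ω) := by
    have h1 : ∀ᵐ ω ∂P, ∀ k ∈ Icc 3 (i + 2), ∀ l, J k l ω ∈ Icc 1 (k - 1) := by
      rw [Finset.eventually_all]
      intro k hk
      exact ae_valid hJ k (Finset.mem_Icc.mp hk).1
    filter_upwards [h1] with ω hω
    exact Sm_pt J ω i hω f hf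
  have hInt : ∀ h : Hist m, Integrable ((At J (i + 2) h).indicator (fun _ => f h)) P := fun h =>
    (integrable_const (f h)).indicator (At_meas hJ (i + 2) h)
  obtain ⟨h1, h2⟩ := Sm_int P i (fun h => (At J (i + 2) h).indicator (fun _ => f h)) hInt
  refine ⟨h1.congr hae, ?_⟩
  rw [← integral_congr_ae hae, h2, Ex_eq hUP hJ i f]
  refine Sm_congr m i _ _ (fun h => ?_)
  rw [integral_indicator_const (f h) (At_meas hJ (i + 2) h), smul_eq_mul, mul_comm]

theorem t_MB : S_UP → S_TW → S_ER → S_MB.{u} := by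
  intro hUP _ _ m δ _ _ Ω _ P J hJ i f hf
  exact main hUP hJ i f hf

end Pool.Agent.H102.TA.MB
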